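import Pool.Agent.H54.LQ.Targets

/-!
# Row DEL: dense measurable elements of the stabilizers
-/

set_option autoImplicit false

open Set Filter Topology

namespace Pool.Agent.H95.LQ

open Pool.Agent.H93.CP Pool.Agent.H7.LP Pool.Agent.H7.LQ Pool.Agent.H54.LQ

theorem pf_DEL (h1 : Pool.Agent.H7.LP.T_LAB) (h2 : T_KRN) (h3 : T_BSU) : T_DEL := by
  intro G X _ _ _ _ _ _ _ _ L M _ Y
  obtain ⟨c1, -, -, -, c5, -, -⟩ := h1 G
  have key : ∀ k : ℕ, ∃ ν : ℕ → X × G → G, (∀ n, Measurable (ν n)) ∧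
      (∀ n p, ν n p ∈ (Stb (L.H k) (lb L Y k p.1 p.2) : Set G)) ∧
      ∀ p, ∀ g ∈ (Stb (L.H k) (lb L Y k p.1 p.2) : Set G), ∀ O ∈ 𝓝 g, ∃ n, ν n p ∈ O := by
    intro k
    have hH : IsClosed (L.H k : Set G) := Subgroup.isClosed_of_isOpen _ (L.piece k).op
    refine h2 (X × G) G (fun p => (Stb (L.H k) (lb L Y k p.1 p.2) : Set G)) ?_ ?_ ?_
    · intro p
      exact c5 (L.H k) (lb L Y k p.1 p.2) hH (fun n => c1 (L.R k) _ n)
    · intro p
      exact ⟨1, (Stb (L.H k) (lb L Y k p.1 p.2)).one_mem⟩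
    · intro U hU
      exact h3 G X L M Y k U hU
  choose δ hm he hd using key
  exact ⟨δ, hm, fun k n p => he k n p, fun k p g hg O hO => hd k p g hg O hO⟩

end Pool.Agent.H95.LQ
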